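import Pool.Agent.Helper26.FD.Defs

/-!
# FD, block (C): counting tuples of forms in a box with prescribed residues
-/

set_option autoImplicit false

namespace Pool.Agent.Helper17.FD

open MvPolynomial Pool.Agent.Helper26.FD

/-- integers in a real interval and in a residue class -/
theorem count_ap (lo hi : ℝ) (r : ℕ) (hr : 1 ≤ r) (v : ℤ) :
    {z : ℤ | lo ≤ z ∧ (z : ℝ) ≤ hi ∧ (r : ℤ) ∣ z - v}.Finite ∧
    (lo ≤ hi → (({z : ℤ | lo ≤ z ∧ (z : ℝ) ≤ hi ∧ (r : ℤ) ∣ z - v}.ncard : ℕ) : ℝ) ≤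
      (hi - lo) / r + 1) ∧
    (hi - lo) / r - 1 ≤ (({z : ℤ | lo ≤ z ∧ (z : ℝ) ≤ hi ∧ (r : ℤ) ∣ z - v}.ncard : ℕ) : ℝ) := by
  have hr0 : (0 : ℝ) < r := by exact_mod_cast hr
  have key : {z : ℤ | lo ≤ z ∧ (z : ℝ) ≤ hi ∧ (r : ℤ) ∣ z - v} =
      (fun k : ℤ => v + r * k) '' (Finset.Icc ⌈(lo - v) / r⌉ ⌊(hi - v) / r⌋ : Finset ℤ) := by
    ext z
    simp only [Set.mem_ofPred_eq, Finset.coe_Icc, Set.mem_image, Set.mem_Icc]
    constructor
    · rintro ⟨h1, h2, k, hk⟩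
      have hz : z = v + r * k := by linarith
      have hzr : (z : ℝ) = v + r * k := by rw [hz]; push_cast; ring
      refine ⟨k, ⟨?_, ?_⟩, hz.symm⟩
      · rw [Int.ceil_le, div_le_iff₀ hr0]; linarith
      · rw [Int.le_floor, le_div_iff₀ hr0]; linarith
    · rintro ⟨k, ⟨h1, h2⟩, rfl⟩
      rw [Int.ceil_le, div_le_iff₀ hr0] at h1
      rw [Int.le_floor, le_div_iff₀ hr0] at h2
      push_cast
      refine ⟨by linarith, by linarith, ⟨k, by ring⟩⟩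
  have hinj : Function.Injective (fun k : ℤ => v + r * k) := by
    intro a b hab
    have : (r : ℤ) * a = r * b := by simpa using hab
    have hr' : (r : ℤ) ≠ 0 := by exact_mod_cast (by omega : r ≠ 0)
    exact mul_left_cancel₀ hr' this
  rw [key, Set.ncard_image_of_injective _ hinj, Set.ncard_coe_finset, Int.card_Icc]
  refine ⟨(Finset.finite_toSet _).image _, fun hle => ?_, ?_⟩
  · have h1 : ((⌊(hi - v) / r⌋ : ℤ) : ℝ) ≤ (hi - v) / r := Int.floor_le _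
    have h2 : (lo - v) / r ≤ ((⌈(lo - v) / r⌉ : ℤ) : ℝ) := Int.le_ceil _
    have h3 : (hi - v) / r - (lo - v) / r = (hi - lo) / r := by ring
    have h4 : 0 ≤ (hi - lo) / r := div_nonneg (by linarith) hr0.le
    rcases le_total 0 (⌊(hi - v) / r⌋ + 1 - ⌈(lo - v) / r⌉) with h | h
    · have : (((⌊(hi - v) / r⌋ + 1 - ⌈(lo - v) / r⌉).toNat : ℕ) : ℝ) =
          ((⌊(hi - v) / r⌋ + 1 - ⌈(lo - v) / r⌉ : ℤ) : ℝ) := by
        exact_mod_cast congrArg (Int.cast : ℤ → ℝ) (Int.toNat_of_nonneg h)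
      rw [this]; push_cast; linarith
    · rw [Int.toNat_of_nonpos h]; push_cast; linarith
  · have h1 : (hi - v) / r - 1 < ((⌊(hi - v) / r⌋ : ℤ) : ℝ) := Int.sub_one_lt_floor _
    have h2 : ((⌈(lo - v) / r⌉ : ℤ) : ℝ) < (lo - v) / r + 1 := Int.ceil_lt_add_one _
    have h3 : (hi - v) / r - (lo - v) / r = (hi - lo) / r := by ring
    have h5 : ((⌊(hi - v) / r⌋ + 1 - ⌈(lo - v) / r⌉ : ℤ) : ℝ) ≤
        (((⌊(hi - v) / r⌋ + 1 - ⌈(lo - v) / r⌉).toNat : ℕ) : ℝ) := by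
      exact_mod_cast Int.self_le_toNat _
    push_cast at h5
    linarith

/-- the exponents of degree `d` -/
abbrev Idx (N d : ℕ) : Type :=
  Fin (N + 1) × {s : Fin (N + 1) →₀ ℕ // s ∈ (Finset.univ : Finset (Fin (N + 1))).finsuppAntidiag d}

theorem mem_anti {N d : ℕ} (s : Fin (N + 1) →₀ ℕ) :
    s ∈ (Finset.univ : Finset (Fin (N + 1))).finsuppAntidiag d ↔ s.degree = d := by
  rw [Finset.mem_finsuppAntidiag]
  simp [Finsupp.degree_eq_sum]

/-- coefficients of a tuple -/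
def tup {N : ℕ} (d : ℕ) (F : Fin (N + 1) → MvPolynomial (Fin (N + 1)) ℤ) : Idx N d → ℤ :=
  fun x => coeff x.2.1 (F x.1)

/-- the tuple with given coefficients -/
noncomputable def untup {N d : ℕ} (g : Idx N d → ℤ) :
    Fin (N + 1) → MvPolynomial (Fin (N + 1)) ℤ :=
  fun i => ∑ s : {s : Fin (N + 1) →₀ ℕ //
    s ∈ (Finset.univ : Finset (Fin (N + 1))).finsuppAntidiag d}, monomial s.1 (g (i, s))

theorem untup_hom {N d : ℕ} (g : Idx N d → ℤ) (i : Fin (N + 1)) :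
    (untup g i).IsHomogeneous d := by
  apply IsHomogeneous.sum
  intro s _
  exact isHomogeneous_monomial _ ((mem_anti s.1).1 s.2)

theorem tup_untup {N d : ℕ} (g : Idx N d → ℤ) : tup d (untup g) = g := by
  ext ⟨i, s⟩
  simp only [tup, untup, coeff_sum, coeff_monomial]
  rw [Finset.sum_eq_single s]
  · simp
  · intro b _ hb
    rw [if_neg]
    intro h
    exact hb (Subtype.ext h)
  · simp

theorem tup_inj {N d : ℕ} {F G : Fin (N + 1) → MvPolynomial (Fin (N + 1)) ℤ}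
    (hF : ∀ i, (F i).IsHomogeneous d) (hG : ∀ i, (G i).IsHomogeneous d)
    (h : tup d F = tup d G) : F = G := by
  ext i s
  by_cases hs : s.degree = d
  · exact congrFun h (i, ⟨s, (mem_anti s).2 hs⟩)
  · rw [(hF i).coeff_eq_zero hs, (hG i).coeff_eq_zero hs]

/-- one coordinate of the box -/
def cell (a ε : ℝ) (B : ℕ) (m : ℕ) (z₀ : ℤ) : Set ℤ :=
  {z | |(z : ℝ) - B * a| ≤ ε * B ∧ (m : ℤ) ∣ z - z₀}

theorem cell_eq (a ε : ℝ) (B m : ℕ) (z₀ : ℤ) :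
    cell a ε B m z₀ = {z : ℤ | B * a - ε * B ≤ z ∧ (z : ℝ) ≤ B * a + ε * B ∧ (m : ℤ) ∣ z - z₀} := by
  ext z
  simp only [cell, Set.mem_ofPred_eq, abs_le]
  constructor
  · rintro ⟨⟨h1, h2⟩, h3⟩
    exact ⟨by linarith, by linarith, h3⟩
  · rintro ⟨h1, h2, h3⟩
    exact ⟨⟨by linarith, by linarith⟩, h3⟩

theorem cell_finite (a ε : ℝ) (B : ℕ) {m : ℕ} (hm : 1 ≤ m) (z₀ : ℤ) :
    (cell a ε B m z₀).Finite := by
  rw [cell_eq]
  exact (count_ap _ _ m hm z₀).1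

theorem cell_count (a ε : ℝ) (hε : 0 < ε) {m p : ℕ} (hm : 1 ≤ m) (hp : 1 ≤ p)
    (hpm : p.Coprime m) (z₀ f : ℤ) (B : ℕ) (hB : (m : ℝ) * p ≤ ε * B) :
    (1 / (4 * p) : ℝ) * ((cell a ε B m z₀).ncard : ℝ) ≤
      (({z ∈ cell a ε B m z₀ | (p : ℤ) ∣ z - f}.ncard : ℕ) : ℝ) := by
  have hm0 : (0 : ℝ) < m := by exact_mod_cast hm
  have hp0 : (0 : ℝ) < p := by exact_mod_cast hp
  have hp1 : (1 : ℝ) ≤ p := by exact_mod_cast hp
  -- the residue class
  obtain ⟨v, hv1, hv2⟩ : ∃ v : ℤ, (m : ℤ) ∣ v - z₀ ∧ (p : ℤ) ∣ v - f := by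
    have hco : IsCoprime (m : ℤ) (p : ℤ) := by
      rw [Int.isCoprime_iff_gcd_eq_one]
      simpa [Nat.Coprime, Nat.gcd_comm] using hpm
    obtain ⟨u, w, huw⟩ := hco
    refine ⟨z₀ + u * m * (f - z₀), ⟨u * (f - z₀), by ring⟩, ⟨w * (z₀ - f), ?_⟩⟩
    have : u * (m : ℤ) = 1 - w * p := by linarith
    rw [this]; ring
  have hmp : 1 ≤ m * p := Nat.mul_pos hm hp
  have hsub : {z : ℤ | B * a - ε * B ≤ z ∧ (z : ℝ) ≤ B * a + ε * B ∧ ((m * p : ℕ) : ℤ) ∣ z - v} ⊆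
      {z ∈ cell a ε B m z₀ | (p : ℤ) ∣ z - f} := by
    rintro z ⟨h1, h2, h3⟩
    have h4 : (m : ℤ) ∣ z - v := (show (m : ℤ) ∣ ((m * p : ℕ) : ℤ) from ⟨p, by push_cast; rfl⟩).trans h3
    have h5 : (p : ℤ) ∣ z - v :=
      (show (p : ℤ) ∣ ((m * p : ℕ) : ℤ) from ⟨m, by push_cast; ring⟩).trans h3
    refine ⟨?_, ?_⟩
    · rw [cell_eq]
      refine ⟨h1, h2, ?_⟩
      have : z - z₀ = (z - v) + (v - z₀) := by ring
      rw [this]; exact dvd_add h4 hv1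
    · have : z - f = (z - v) + (v - f) := by ring
      rw [this]; exact dvd_add h5 hv2
  have hfin : {z ∈ cell a ε B m z₀ | (p : ℤ) ∣ z - f}.Finite :=
    (cell_finite a ε B hm z₀).subset (fun z hz => hz.1)
  have hle := Set.ncard_le_ncard hsub hfin
  have hlow := (count_ap (B * a - ε * B) (B * a + ε * B) (m * p) hmp v).2.2
  have hup := (count_ap (B * a - ε * B) (B * a + ε * B) m hm z₀).2.1 (by
    have : 0 ≤ ε * B := by positivity
    linarith)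
  rw [← cell_eq] at hup
  have hw : (B * a + ε * B - (B * a - ε * B)) = 2 * (ε * B) := by ring
  rw [hw] at hlow hup
  have hle' : (({z : ℤ | B * a - ε * B ≤ z ∧ (z : ℝ) ≤ B * a + ε * B ∧
      ((m * p : ℕ) : ℤ) ∣ z - v}.ncard : ℕ) : ℝ) ≤
      (({z ∈ cell a ε B m z₀ | (p : ℤ) ∣ z - f}.ncard : ℕ) : ℝ) := by exact_mod_cast hle
  refine le_trans ?_ (le_trans hlow hle')
  have hX : 1 ≤ ε * B / (m * p) := by rw [le_div_iff₀ (by positivity)]; linarith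
  have e1 : 2 * (ε * B) / (m : ℝ) = 2 * p * (ε * B / (m * p)) := by field_simp
  have e2 : 2 * (ε * B) / ((m * p : ℕ) : ℝ) = 2 * (ε * B / (m * p)) := by push_cast; ring
  rw [e1] at hup
  rw [e2]
  set X := ε * B / (m * p) with hXdef
  calc (1 / (4 * p) : ℝ) * ((cell a ε B m z₀).ncard : ℝ)
      ≤ (1 / (4 * p) : ℝ) * (2 * p * X + 1) := by gcongr
    _ = X / 2 + 1 / (4 * p) := by field_simp; ring
    _ ≤ X / 2 + 1 / 4 := by
        have : 1 / (4 * (p : ℝ)) ≤ 1 / 4 := by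
          apply one_div_le_one_div_of_le <;> linarith
        linarith
    _ ≤ 2 * X - 1 := by linarith

theorem ncard_pi {ι : Type*} [Fintype ι] [DecidableEq ι] (E : ι → Set ℤ) (hE : ∀ i, (E i).Finite) :
    {g : ι → ℤ | ∀ i, g i ∈ E i}.Finite ∧
      {g : ι → ℤ | ∀ i, g i ∈ E i}.ncard = ∏ i, (E i).ncard := by
  have h : {g : ι → ℤ | ∀ i, g i ∈ E i} =
      ((Fintype.piFinset fun i => (hE i).toFinset : Finset (ι → ℤ)) : Set (ι → ℤ)) := by
    ext g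
    simp
  rw [h]
  refine ⟨Finset.finite_toSet _, ?_⟩
  rw [Set.ncard_coe_finset, Fintype.card_piFinset]
  refine Finset.prod_congr rfl fun i _ => ?_
  rw [Set.ncard_eq_toFinset_card _ (hE i)]

theorem cbox_count (N d m : ℕ) (hm : 1 ≤ m) (p : ℕ) (hp : p.Prime) (hpm : p.Coprime m)
    (Fbar : Fin (N + 1) → MvPolynomial (Fin (N + 1)) ℤ) (hFbar : ∀ i, (Fbar i).IsHomogeneous d) :
    ∃ c : ℝ, 0 < c ∧ ∀ (A : Fin (N + 1) → MvPolynomial (Fin (N + 1)) ℝ),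
      (∀ i, (A i).IsHomogeneous d) → ∀ ε : ℝ, 0 < ε →
      ∀ F₀ : Fin (N + 1) → MvPolynomial (Fin (N + 1)) ℤ, (∀ i, (F₀ i).IsHomogeneous d) →
      ∃ B₀ : ℕ, ∀ B ≥ B₀, (cbox N d m A ε F₀ B).Finite ∧
        c * ((cbox N d m A ε F₀ B).ncard : ℝ) ≤
          (({F ∈ cbox N d m A ε F₀ B | ∀ i s, (p : ℤ) ∣ coeff s (F i) - coeff s (Fbar i)}.ncard : ℕ) :
            ℝ) := by
  classical
  have hp1 : 1 ≤ p := hp.one_lt.le
  have hp0 : (0 : ℝ) < p := by exact_mod_cast hp1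
  refine ⟨∏ _x : Idx N d, (1 / (4 * p) : ℝ), Finset.prod_pos fun _ _ => by positivity, ?_⟩
  intro A hA ε hε F₀ hF₀
  obtain ⟨B₀, hB₀⟩ := exists_nat_ge ((m : ℝ) * p / ε)
  refine ⟨B₀, fun B hB => ?_⟩
  have hBm : (m : ℝ) * p ≤ ε * B := by
    have : (m : ℝ) * p / ε ≤ B := hB₀.trans (by exact_mod_cast hB)
    rw [div_le_iff₀ hε] at this
    linarith
  have hεB : 0 ≤ ε * (B : ℝ) := by positivity
  -- the two products
  set E : Idx N d → Set ℤ := fun x =>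
    cell (coeff x.2.1 (A x.1)) ε B m (coeff x.2.1 (F₀ x.1)) with hE
  set E' : Idx N d → Set ℤ := fun x =>
    {z ∈ E x | (p : ℤ) ∣ z - coeff x.2.1 (Fbar x.1)} with hE'
  have hEf : ∀ x, (E x).Finite := fun x => cell_finite _ _ _ hm _
  have hE'f : ∀ x, (E' x).Finite := fun x => (hEf x).subset fun z hz => hz.1
  have him : tup d '' (cbox N d m A ε F₀ B) = {g : Idx N d → ℤ | ∀ x, g x ∈ E x} := by
    ext g
    constructor
    · rintro ⟨F, hF, rfl⟩ x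
      exact (hF x.1).2 x.2.1
    · intro hg
      refine ⟨untup g, fun i => ⟨untup_hom g i, fun s => ?_⟩, tup_untup g⟩
      by_cases hs : s.degree = d
      · have h1 := hg (i, ⟨s, (mem_anti s).2 hs⟩)
        have h2 := congrFun (tup_untup g) (i, ⟨s, (mem_anti s).2 hs⟩)
        simp only [tup] at h2
        rw [h2]
        exact h1
      · rw [(untup_hom g i).coeff_eq_zero hs, (hA i).coeff_eq_zero hs, (hF₀ i).coeff_eq_zero hs]
        simpa using hεB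
  have him' : tup d '' {F ∈ cbox N d m A ε F₀ B | ∀ i s, (p : ℤ) ∣ coeff s (F i) - coeff s (Fbar i)}
      = {g : Idx N d → ℤ | ∀ x, g x ∈ E' x} := by
    ext g
    constructor
    · rintro ⟨F, ⟨hF, hF'⟩, rfl⟩ x
      exact ⟨(hF x.1).2 x.2.1, hF' x.1 x.2.1⟩
    · intro hg
      have hg1 : g ∈ {g : Idx N d → ℤ | ∀ x, g x ∈ E x} := fun x => (hg x).1
      rw [← him] at hg1
      obtain ⟨F, hF, rfl⟩ := hg1
      refine ⟨F, ⟨hF, fun i s => ?_⟩, rfl⟩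
      by_cases hs : s.degree = d
      · exact (hg (i, ⟨s, (mem_anti s).2 hs⟩)).2
      · rw [(hF i).1.coeff_eq_zero hs, (hFbar i).coeff_eq_zero hs]
        simp
  have hinj : Set.InjOn (tup d) (cbox N d m A ε F₀ B) := fun F hF G hG h =>
    tup_inj (fun i => (hF i).1) (fun i => (hG i).1) h
  have hinj' : Set.InjOn (tup d)
      {F ∈ cbox N d m A ε F₀ B | ∀ i s, (p : ℤ) ∣ coeff s (F i) - coeff s (Fbar i)} :=
    hinj.mono fun F hF => hF.1
  obtain ⟨hf1, hc1⟩ := ncard_pi E hEf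
  obtain ⟨hf2, hc2⟩ := ncard_pi E' hE'f
  refine ⟨?_, ?_⟩
  · apply Set.Finite.of_finite_image _ hinj
    rw [him]; exact hf1
  · rw [← hinj.ncard_image, ← hinj'.ncard_image, him, him', hc1, hc2]
    push_cast
    rw [← Finset.prod_mul_distrib]
    apply Finset.prod_le_prod
    · intro x _; positivity
    · intro x _
      exact cell_count _ ε hε hm hp1 hpm _ _ B hBm

end Pool.Agent.Helper17.FD
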